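import Pool.Agent.Q267.Cubic.Fin

/-!
# MP_c87117_nt

`∑_{k=0}^{(p-1)/2} C(2k,k)^2 U_k(11,1) ≡ 0 (mod p)` for every prime `p > 3` which is a nonzero
square modulo `13`.
-/

namespace Pool.Agent.Results.MP_c87117_nt.CubicModular

open Finset

/-- The Lucas sequence `U_n(b,c)`. -/
def U (b c : ℤ) : ℕ → ℤ
  | 0 => 0
  | 1 => 1
  | n + 2 => b * U b c (n + 1) - c * U b c n

/-- `S(p) = ∑_{k=0}^{(p-1)/2} C(2k,k)^2 U_k(11,1)`. -/
def S (p : ℕ) : ℤ :=
  ∑ k ∈ range ((p - 1) / 2 + 1), ((2 * k).choose k : ℤ) ^ 2 * U 11 1 k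

theorem binet {R : Type*} [CommRing R] (e : R) (he : e ^ 2 = 3 * e + 1) (k : ℕ) :
    (6 * e - 9) * ((U 11 1 k : ℤ) : R) = (3 * e + 1) ^ k - (10 - 3 * e) ^ k := by
  induction k using Nat.twoStepInduction with
  | zero => simp [U]
  | one => simp [U]; ring
  | more k h1 h2 =>
    rw [U]
    push_cast
    have a1 : (3 * e + 1) ^ 2 = 11 * (3 * e + 1) - 1 := by linear_combination 9 * he
    have a2 : (10 - 3 * e) ^ 2 = 11 * (10 - 3 * e) - 1 := by linear_combination 9 * he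
    rw [show k + 2 = k + 1 + 1 from rfl, pow_succ, pow_succ, pow_succ (10 - 3 * e),
      pow_succ (10 - 3 * e)]
    rw [pow_succ, pow_succ (10 - 3 * e)] at h2
    linear_combination 11 * h2 - h1 - (3 * e + 1) ^ k * a1 + (10 - 3 * e) ^ k * a2

theorem squares_mod_thirteen : ∀ a ∈ ({1, 3, 4, 9, 10, 12} : Finset ℕ),
    ∃ r : ZMod 13, ((a : ℕ) : ZMod 13) = r * r := by
  decide

/-- **MP_c87117_nt, Q1.** For every prime `p > 3` with `p ≡ 1, 3, 4, 9, 10, 12 (mod 13)` the sum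
`S(p)` is divisible by `p`. -/
theorem result (p : ℕ) (hp : p.Prime) (h3 : 3 < p)
    (h13 : p % 13 ∈ ({1, 3, 4, 9, 10, 12} : Finset ℕ)) : (p : ℤ) ∣ S p := by
  have hpf : Fact p.Prime := ⟨hp⟩
  have h13f : Fact (Nat.Prime 13) := ⟨by norm_num⟩
  have hp2 : p ≠ 2 := by omega
  -- square root of 13
  have hsq : IsSquare ((13 : ℕ) : ZMod p) := by
    rw [← ZMod.exists_sq_eq_prime_iff_of_mod_four_eq_one (p := 13) (q := p) (by norm_num) hp2]
    have hmod : ((p : ℕ) : ZMod 13) = ((p % 13 : ℕ) : ZMod 13) := by simp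
    rw [hmod]
    exact squares_mod_thirteen _ h13
  obtain ⟨m, hm⟩ : ∃ m, p = 2 * m + 1 := hp.odd_of_ne_two hp2
  have hm0 : 0 < m := by omega
  have hm2 : (p - 1) / 2 = m := by omega
  have two_ne : (2 : ZMod p) ≠ 0 := by
    intro h
    have h' : ((2 : ℕ) : ZMod p) = 0 := by simpa using h
    rw [ZMod.natCast_eq_zero_iff] at h'
    have := Nat.le_of_dvd (by norm_num) h'
    omega
  have three_ne : (3 : ZMod p) ≠ 0 := by
    intro h
    have h' : ((3 : ℕ) : ZMod p) = 0 := by simpa using h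
    rw [ZMod.natCast_eq_zero_iff] at h'
    have := Nat.le_of_dvd (by norm_num) h'
    omega
  have thirteen_ne : (13 : ZMod p) ≠ 0 := by
    intro h
    have h' : ((13 : ℕ) : ZMod p) = 0 := by simpa using h
    rw [ZMod.natCast_eq_zero_iff] at h'
    have h'' := (Nat.prime_dvd_prime_iff_eq hp (by norm_num)).1 h'
    rw [h''] at h13
    revert h13
    decide
  obtain ⟨r, hr⟩ := hsq
  have hr' : r * r = 13 := by rw [← hr]; push_cast; ring
  obtain ⟨e, he2⟩ : ∃ e : ZMod p, 2 * e = 3 + r :=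
    ⟨(3 + r) / 2, by field_simp⟩
  have he : e ^ 2 = 3 * e + 1 := by
    have h4 : (2 : ZMod p) ^ 2 ≠ 0 := pow_ne_zero _ two_ne
    apply mul_left_cancel₀ h4
    linear_combination (2 * e + 3 + r - 6) * he2 + hr'
  have hne : 6 * e - 9 ≠ 0 := by
    intro h
    have h1 : 3 * r = 0 := by linear_combination h - 3 * he2
    have h2 : r = 0 := (mul_eq_zero.1 h1).resolve_left three_ne
    apply thirteen_ne
    rw [← hr', h2, mul_zero]
  rw [← ZMod.intCast_zmod_eq_zero_iff_dvd]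
  have key := Pool.Agent.Q267.Cubic.P_eq p m hm hm0 three_ne e he
  have hS : (6 * e - 9) * ((S p : ℤ) : ZMod p) = 0 := by
    unfold S
    rw [hm2]
    push_cast
    rw [mul_sum]
    have e1 : ∀ k ∈ range (m + 1),
        (6 * e - 9) * ((((2 * k).choose k : ℕ) : ZMod p) ^ 2 * ((U 11 1 k : ℤ) : ZMod p)) =
        ((m.choose k : ℕ) : ZMod p) ^ 2 * (16 * (3 * e + 1)) ^ k
          - ((m.choose k : ℕ) : ZMod p) ^ 2 * (16 * (10 - 3 * e)) ^ k := by
      intro k hk
      have hk' : k ≤ m := by simpa [Nat.lt_succ_iff] using hk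
      have hc := Pool.Agent.Q267.Cubic.central p m hm k hk'
      rw [Nat.centralBinom] at hc
      rw [hc, mul_pow 16, mul_pow 16]
      have hb := binet e he k
      have h16 : ((-4 : ZMod p) ^ k) ^ 2 = 16 ^ k := by
        rw [← pow_mul, mul_comm k 2, pow_mul]; norm_num
      linear_combination ((-4 : ZMod p) ^ k) ^ 2 * ((m.choose k : ℕ) : ZMod p) ^ 2 * hb
        + ((m.choose k : ℕ) : ZMod p) ^ 2 * ((3 * e + 1) ^ k - (10 - 3 * e) ^ k) * h16
    rw [sum_congr rfl e1, sum_sub_distrib]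
    unfold Pool.Agent.Q267.Cubic.P at key
    rw [key, sub_self]
  exact (mul_eq_zero.1 hS).resolve_left hne

end Pool.Agent.Results.MP_c87117_nt.CubicModular
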